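import Pool.Agent.Run7.h363.PA.Gr8
import Pool.Agent.R836.RD.Main

set_option autoImplicit false

/-!
# Parity patterns of multipartitions jointly with all functions algebraic over `F_2(Δ)` (MP_a3366f_nt)

Let `P = ∑ p(n) X ^ n` and `D = X ∏ (1 - X ^ n) ^ 24 = X / P ^ 24` modulo 2. For a rational number `σ`
let `E_σ` be the set of the power series over `F_2` of the form `X ^ σ g` with `g` algebraic over
`F_2(D)`. By the classical theory (not used here) `E_0` contains the reductions of the modular forms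
with integral coefficients, of all weights and levels; eta-quotients are in `E_(-s/24)`,
`s = ∑ d e_d`.

(1) If `y = P ^ t` for a rational number `t` (that is, `y ^ b P ^ u = P ^ v`, `t = (v - u) / b`), then
`y ∈ E_(t / 24)`.

(2) If `f ∈ E_σ` and `M ≥ 1`, then the part of `f` with the exponents `n ≡ r (mod M)` is in `E_σ`, and
for `r < M` the series `∑ f_(M n + r) X ^ n` is in `E_((σ - r) / M)`. This holds for all rational `σ`.

(3) Let `f_j ∈ E_(σ_j)`, `m_j ≥ 1`, `M ≥ 1`. Call `j` active if `σ_j` is not an integer and, with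
`g = gcd(m_j, m_l)`, `σ_j m_l / g - σ_l m_j / g` is not an integer for all `l ≠ j`. There is a constant
`C` such that every sum

  `w(n) = ∑_j ∑_(i < K) c_(j,i) f_j(m_j n + i)`, `n ≡ ρ (mod M)`,

in which for some active `j` some `c_(j,i) ≠ 0` belongs to a class `m_j ρ + i` modulo `m_j M` where
`f_j` has a nonzero coefficient, takes both values in every interval `[A, C (A + K)]`. The last
condition is always satisfied if `f_j = P ^ t` with `t` odd.

For instance: the parity of `p_t(n)`, `t` odd, differs from every sum of a bounded number of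
coefficients near `n` of a fixed finite family from `E_0` on every progression in every interval
`[A, C A]`. The starting files treat eta-quotients (`EtaQuotients`, `AutomaticSequences`), with exponents
in `(1 / 24) Z`, and this uses that they are products of functions for which (2) can be checked; here
nothing but the algebraicity over `F_2(D)` is assumed, and all rational exponents are admitted.

Method. Let `K_0` be the algebraic closure of `F_2(D)` in the field of fractions of the power series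
over the algebraic closure of `F_2`. New is `K_0 = K_0 ^ 2 + D K_0 ^ 2`: the sets `U_0 = K_0`,
`U_(n+1) = U_n ^ 2 + D U_n ^ 2` are fields containing `D`; for `y ∈ K_0` some `z = y ^ (2 ^ j)` is
separable over `F_2(D)` and purely inseparable over `U_(j+1)`, so it is in `U_(j+1)`, and one can
descend to `y ∈ U_1`, as `D` is not a square. With `D = X (∏ (1 - X ^ n) ^ 12) ^ 2` this gives the
sections modulo 2 of `E_0`, by induction those modulo `2 ^ k`; odd moduli: roots of unity (`D(ζ X)` is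
algebraic over `F_2(D)`, starting files); the other `σ`: multiplication by powers of
`∑ p(2 ^ a n) X ^ n`, which has the exponent `1 / (24 2 ^ a)`, and `f = f ^ (2 ^ e) (1 / f) ^ (2 ^ e - 1)`
for odd denominators `b ∣ 2 ^ e - 1`. Part (3): `X` is transcendental over `K_0`, so a linear relation
over `F_2(X)` splits according to the exponents modulo 1; Liouville relative to `F_2(X, D)` with the
transcendence measure of the starting files; `p_t` is not even on any progression (starting file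
`PatternsOnAllProgressions`).
-/

namespace Pool.Agent.Results.MP_a3366f_nt.AlgebraicOverDelta

open PowerSeries

/-- `∑ p(n) X ^ n` modulo 2 -/
noncomputable def P : (ZMod 2)⟦X⟧ :=
  PowerSeries.mk fun n => (Fintype.card (Nat.Partition n) : ZMod 2)

/-- `D = X / P ^ 24`, the reduction of the discriminant `Δ = X ∏ (1 - X ^ n) ^ 24` modulo 2 -/
noncomputable def D : (ZMod 2)⟦X⟧ := X * (P⁻¹) ^ 24

/-- `u` is algebraic over `F_2(D)` -/
def AlgD (u : (ZMod 2)⟦X⟧) : Prop := IsAlgebraic (Algebra.adjoin (ZMod 2) {D}) u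

/-- `f` is `X ^ σ` times a function algebraic over `F_2(D)`: `f ^ N = X ^ (a - b) u / v` with
`σ = (a - b) / N`, `N ≥ 1`, and `u`, `v` algebraic over `F_2(D)` -/
def HasExponent (f : (ZMod 2)⟦X⟧) (σ : ℚ) : Prop :=
  ∃ (N a b : ℕ) (u v : (ZMod 2)⟦X⟧), 0 < N ∧ σ = ((a : ℚ) - b) / N ∧ AlgD u ∧ AlgD v ∧ v ≠ 0 ∧
    f ^ N * X ^ b * v = X ^ a * u

/-- `σ_j` is not an integer, and neither is `σ_j m_l / g - σ_l m_j / g`, `g = gcd(m_j, m_l)`, for
`l ≠ j` -/
def Active {k : ℕ} (σ : Fin k → ℚ) (m : Fin k → ℕ) (j : Fin k) : Prop :=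
  (∀ q : ℤ, σ j ≠ q) ∧ ∀ l, l ≠ j → ∀ q : ℤ,
    σ j * (m l / Nat.gcd (m j) (m l) : ℕ) - σ l * (m j / Nat.gcd (m j) (m l) : ℕ) ≠ q

theorem result :
    (∀ (y : (ZMod 2)⟦X⟧) (b u v : ℕ), 0 < b → y ^ b * P ^ u = P ^ v →
      HasExponent y (((v : ℚ) - u) / b / 24)) ∧
    (∀ (f : (ZMod 2)⟦X⟧) (σ : ℚ), HasExponent f σ → ∀ M r : ℕ, 0 < M →
      HasExponent (PowerSeries.mk fun n => if n % M = r % M then coeff n f else 0) σ ∧
      (r < M → HasExponent (PowerSeries.mk fun n => coeff (M * n + r) f) ((σ - r) / M))) ∧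
    ∀ (k : ℕ) (f : Fin k → (ZMod 2)⟦X⟧) (σ : Fin k → ℚ), (∀ j, HasExponent (f j) (σ j)) →
      ∀ m : Fin k → ℕ, (∀ j, 0 < m j) → ∀ M : ℕ, 0 < M →
      ∃ C : ℕ, ∀ (K : ℕ) (c : Fin k → ℕ → ZMod 2) (ρ : ℕ),
        (∃ j, Active σ m j ∧ ∃ i < K, c j i ≠ 0 ∧
          ((∃ n, n ≡ m j * ρ + i [MOD m j * M] ∧ coeff n (f j) ≠ 0) ∨
            ∃ t, Odd t ∧ f j = P ^ t)) →
        ∀ (κ : ZMod 2) (A : ℕ), ∃ n, A ≤ n ∧ n ≤ C * (A + K) ∧ n ≡ ρ [MOD M] ∧
          ∑ j, ∑ i ∈ Finset.range K, c j i * coeff (m j * n + i) (f j) = κ := by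
  have hD : D = Pool.Agent.H397R2.PP.Db := Pool.Agent.Run7.h363.PA.Db_eq'
  have hcl : ∀ (f : (ZMod 2)⟦X⟧) (σ : ℚ), HasExponent f σ ↔ Pool.Agent.Run7.h363.PA.Cl σ f := by
    intro f σ
    unfold HasExponent Pool.Agent.Run7.h363.PA.Cl AlgD
    rw [hD]
  have hPD : P ^ 24 * D = X := by
    have h1 : P * P⁻¹ = 1 := by
      apply PowerSeries.mul_inv_cancel
      have h2 : constantCoeff P = 1 := Pool.Agent.TH693.PP.constP
      rw [h2]
      exact one_ne_zero
    calc P ^ 24 * D = X * (P * P⁻¹) ^ 24 := by rw [D, mul_pow]; ring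
      _ = X := by rw [h1, one_pow, mul_one]
  refine ⟨fun y b u v hb h => ?_, fun f σ h M r hM => ?_, fun k f σ hf m hm M hM => ?_⟩
  · refine ⟨24 * b, v, u, D ^ u, D ^ v, by omega, by push_cast; ring, ?_, ?_, ?_, ?_⟩
    · exact (isAlgebraic_algebraMap (⟨D, Algebra.subset_adjoin (Set.mem_singleton _)⟩ :
        Algebra.adjoin (ZMod 2) {D})).pow u
    · exact (isAlgebraic_algebraMap (⟨D, Algebra.subset_adjoin (Set.mem_singleton _)⟩ :
        Algebra.adjoin (ZMod 2) {D})).pow v
    · apply pow_ne_zero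
      intro h0
      rw [h0, mul_zero] at hPD
      exact PowerSeries.X_ne_zero hPD.symm
    · have h1 : (y ^ b * P ^ u) ^ 24 = (P ^ v) ^ 24 := by rw [h]
      have h2 : y ^ (24 * b) * X ^ u * D ^ v = (y ^ b * P ^ u) ^ 24 * D ^ u * D ^ v := by
        rw [← hPD]
        ring
      have h3 : X ^ v * D ^ u = (P ^ v) ^ 24 * D ^ u * D ^ v := by
        rw [← hPD]
        ring
      rw [h2, h3, h1]
  · rw [hcl, hcl]
    have h1 := (hcl f σ).1 h
    exact ⟨Pool.Agent.Run7.h363.PA.Cl_sec h1 M r hM,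
      fun hr => Pool.Agent.Run7.h363.PA.Cl_fn h1 M r hr⟩
  · obtain ⟨C, hC⟩ := Pool.Agent.Run7.h363.PA.main_Cl f σ (fun j => (hcl _ _).1 (hf j)) m hm M hM
    refine ⟨C, fun K c ρ hc κ A => hC K c ρ ?_ κ A⟩
    obtain ⟨j, hact, i, hi, hci, hor⟩ := hc
    have key : ∀ n, n ≡ m j * ρ + i [MOD m j * M] → coeff n (f j) ≠ 0 →
        Pool.Agent.TH693.QQ.proj (m j * M) (m j * ρ + i) (f j) ≠ 0 := by
      intro n h1 h2 h0
      have h3 := congrArg (coeff n) h0
      rw [Pool.Agent.TH693.QQ.proj, coeff_mk, map_zero,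
        if_pos (show n % (m j * M) = (m j * ρ + i) % (m j * M) from h1)] at h3
      exact h2 h3
    refine ⟨j, hact, i, hi, hci, ?_⟩
    rcases hor with ⟨n, h1, h2⟩ | ⟨t, ht, hft⟩
    · exact key n h1 h2
    · obtain ⟨n, -, h1⟩ := Pool.Agent.R836.RD.full_P t ht (m j * M) (m j * ρ + i)
        (Nat.mul_pos (hm j) hM) 0
      refine key (m j * M * n + (m j * ρ + i)) ?_ ?_
      · unfold Nat.ModEq
        rw [Nat.mul_add_mod]
      · have h2 : f j = Pool.Agent.TH693.PP.P ^ t := hft
        rw [h2, h1]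
        exact one_ne_zero

end Pool.Agent.Results.MP_a3366f_nt.AlgebraicOverDelta
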