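import Pool.Agent.Run7.h363.PA.Ex

set_option autoImplicit false

/-!
# Joint parity patterns of all fractional multipartition functions (MP_a3366f_nt)

Let `P = ∑ p(n) X ^ n` modulo 2. For every rational number `t` with odd denominator there is exactly
one power series `P ^ t` over `F_2` with `(P ^ t) ^ b = P ^ (b t)` for a positive integer `b` with
`b t` integral (part 1); its coefficients `p_t(n)` are the parities of the number of
`t`-multipartitions for integers `t ≥ 1`, and the residues modulo 2 of the coefficients of
`(∑ p(n) q ^ n) ^ t` (which are 2-adic integers) in general.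

(2) Let `t_1, …, t_k` be distinct nonzero rational numbers for which the `P ^ (t_j)` exist, and let
`h_1, …, h_l` be power series over `F_2` which are algebraic over `F_2(X)`; by Christol's theorem
these are the series of the sequences computed by finite automata reading binary digits. There is a
constant `C` such that every sum

  `W(n) = ∑_j ∑_(i < K) c_(j,i) p_(t_j)(n + i) + ∑_z ∑_(i < K) d_(z,i) h_z(n + i)` modulo 2,

in which some `c_(j,i)` is not 0, takes both values in every interval `[A, C (A + K)]`.

The starting file `JointPatterns` has this for `t_j = 1, …, T` and without the `h_z`; the starting file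
`AutomaticSequences` requires that the `t_j` are integers which lie in different classes modulo 24 (for
instance it says nothing about `p_1(n) + p_25(n)` and automata, and nothing about fractions). Here all
rational exponents, positive and negative, may be used at the same time: `p_(-1)` is the indicator
of the generalised pentagonal numbers, `p_(1/3)`, `p_(2/5)`, ….

Method. Transcendence measure of `D = X / P ^ 24` over `F_2(X)` (starting files). With a common
denominator `B` and `z = P ^ (1 / B)` in an algebraically closed field the `P ^ (t_j)` are roots of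
unity times distinct powers of `z`, which is transcendental over the algebraic closure of `F_2(X)`.
-/

namespace Pool.Agent.Results.MP_a3366f_nt.FractionalPowers

open PowerSeries

/-- `∑ p(n) X ^ n` modulo 2 -/
noncomputable def P : (ZMod 2)⟦X⟧ :=
  PowerSeries.mk fun n => (Fintype.card (Nat.Partition n) : ZMod 2)

/-- `y = P ^ t`: there are `b ≥ 1` and `u, v ≥ 0` with `t = (v - u) / b` and `y ^ b P ^ u = P ^ v` -/
def IsPower (y : (ZMod 2)⟦X⟧) (t : ℚ) : Prop :=
  ∃ b u v : ℕ, 0 < b ∧ t = ((v : ℚ) - u) / b ∧ y ^ b * P ^ u = P ^ v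

theorem result :
    (∀ t : ℚ, Odd t.den → ∃! y, IsPower y t) ∧
    ∀ (k : ℕ) (y : Fin k → (ZMod 2)⟦X⟧) (t : Fin k → ℚ), (∀ j, IsPower (y j) (t j)) →
      (∀ j, t j ≠ 0) → Function.Injective t →
      ∀ (l : ℕ) (h : Fin l → (ZMod 2)⟦X⟧),
        (∀ z, IsAlgebraic (Algebra.adjoin (ZMod 2) {(X : (ZMod 2)⟦X⟧)}) (h z)) →
      ∃ C : ℕ, ∀ (K : ℕ) (c : Fin k → ℕ → ZMod 2) (d : Fin l → ℕ → ZMod 2),
        (∃ j, ∃ i < K, c j i ≠ 0) → ∀ (κ : ZMod 2) (A : ℕ), ∃ n, A ≤ n ∧ n ≤ C * (A + K) ∧
          ∑ j, ∑ i ∈ Finset.range K, c j i * coeff (n + i) (y j) +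
            ∑ z, ∑ i ∈ Finset.range K, d z i * coeff (n + i) (h z) = κ := by
  refine ⟨fun t ht => ?_, fun k y t hy ht0 htd l h hh => ?_⟩
  · obtain ⟨y, hy⟩ := Pool.Agent.Run7.h363.PA.exists_pow t ht
    exact ⟨y, hy, fun y' hy' => Pool.Agent.Run7.h363.PA.pow_unique hy' hy⟩
  · exact Pool.Agent.Run7.h363.PA.frac y t hy ht0 htd h
      (fun z => Pool.Agent.Run7.h363.PA.cl_of_alg (fun x hx => by
        rw [Set.mem_singleton_iff.1 hx]
        exact Pool.Agent.TH693.QQ.QE2.self_mem (Set.mem_singleton _)) (hh z))

end Pool.Agent.Results.MP_a3366f_nt.FractionalPowers
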