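import Pool.Agent.Run7.h175.JM6
import Pool.Agent.H413R3.Part.Pt

set_option autoImplicit false

/-!
# Counting joint parity patterns of several multipartition functions (MP_a3366f_nt)

Let `p_t(n)` be the number of `t`-multipartitions of `n`. Let `(t_j, s_j)`, `j < m`, be different pairs
with `t_j ≥ 1`, where `t_j` is odd or `s_j = 0`, such that all `2 ^ (s_j) t_j` are in the same class
modulo 3. For all `b, L, R, Q, K` there is `X` such that for all `x ≥ X`, all arrays `c_{j,i}`
(`i ≤ L`) over `F_2`, every Boolean function `Φ` of `R` predictors `v_1(n), …, v_R(n)` which read the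
binary digits of `n` in one pass with `Q` memory states, both values `κ` and every class `ρ` modulo
`2 ^ b` for which some `c_{j,i} ≠ 0` has `gcd(2 ^ b, t_j) ∣ ρ + i`, the equation
`∑_j ∑_{i ≤ L} c_{j,i} p_{t_j}(2 ^ (s_j) n + i) + Φ(v_1(n), …, v_R(n)) = κ` modulo 2 has at least
`√x (log log x) ^ K / log x` solutions `n ≤ x` in the class. (If `gcd(2 ^ b, t_j)` does not divide
`ρ + i` then `p_{t_j}(n + i)` is even for all `n` in the class. For odd `t_j` there is no condition, and
for `b = 0` the condition is `c ≠ 0`.)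

Examples: jointly `p_1(n + i), p_4(n + i), p_7(n + i), …, p_{3 k + 1}(n + i)`; the same with the
`p_{3 k + 2}` and with the `p_{3 k}`; jointly `p_1(n)`, `p_5(2 n)`, `p_7(n)`, `p_1(4 n)`, `p_{11}(8 n)`.
So for instance `p_1(n)` and `p_7(n)` have different parities that often, and equal parities that often,
in every class modulo `2 ^ b`.

Method (after the starting files `R836/PP` and `N493/PE`, which treat one odd `t` and the dilates
`4 ^ a`). Let `f = ∏ (1 - X ^ i)`. (1) Odd `t_j`: for `ε = 1` or `3` and large `e` of a suitable parity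
(this depends on the class modulo 3) all `μ_j = (2 ^ (s_j + e) ε - t_j) / 3` are odd natural numbers. With
`S` the set of the exponents of `f ^ (2 ^ e ε)`, the sum of the joint pattern over the shifts `n - s`,
`s ∈ S`, is the sum of the `c_{j,i}` times the coefficients of `D ^ (μ_j)` at
`8 (2 ^ (s_j) n + i) + μ_j`. Now several of these linear forms in `n` can be equal (different `t_j` with
the same `s_j`), and then the coefficients of the sum `φ` of the corresponding different powers of `D`
with exponents in one class modulo 8 are needed. The theorem on products of Hecke operators at the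
primes `3` and `5` modulo 8 (Nicolas and Serre) is applied to `φ`, whose order of nilpotency is the
largest of those of its terms, and gives the coefficient `1` at products of that many distinct primes
in prescribed classes modulo 8; the other forms are pairwise non-proportional to this one and are
switched off by the Chinese remainder theorem. (2) Even `t = 2 ^ v u`: `p_t(N)` is `p_u(N / 2 ^ v)`
modulo 2, or even. On a class modulo `2 ^ k` the pattern becomes one with odd exponents and dilates
`2 ^ (s + k - v)`, and different pairs remain different. (3) Predictors: by the pigeonhole principle two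
residues modulo `2 ^ k` in the class lead to the same states, and the difference of the pattern at the
two places is a nonzero pattern.
-/

namespace Pool.Agent.Results.MP_a3366f_nt.JointCountsManyFunctions

open PowerSeries

/-- the number of `t`-multipartitions of `n`: the coefficient of `q ^ n` in `∏ 1 / (1 - q ^ i) ^ t` -/
def multipartitions (t n : ℕ) : ℕ :=
  ∑ x ∈ Finset.Nat.antidiagonalTuple t n, ∏ i, Fintype.card (Nat.Partition (x i))

/-- `u(n)` can be computed in one pass over the binary digits of `n` with `Q` memory states: either for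
every `k` the value `u(2 ^ k n + r)` (`n ≥ 1`, `r < 2 ^ k`) depends only on `n` and on one of `Q` states
which is determined by `r` (the digits are read from the lowest one), or for every `k` it depends only
on `r` and on one of `Q` states which is determined by `n` (from the highest one) -/
def OnePass (Q : ℕ) (u : ℕ → ZMod 2) : Prop :=
  (∀ k : ℕ, ∃ (s : ℕ → Fin Q) (h : Fin Q → ℕ → ZMod 2), ∀ n r : ℕ, 1 ≤ n → r < 2 ^ k →
    u (2 ^ k * n + r) = h (s r) n) ∨
  (∀ k : ℕ, ∃ (s : ℕ → Fin Q) (h : Fin Q → ℕ → ZMod 2), ∀ n r : ℕ, 1 ≤ n → r < 2 ^ k →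
    u (2 ^ k * n + r) = h (s n) r)

theorem result (m : ℕ) (t s : Fin m → ℕ) (ht : ∀ j, t j ≠ 0) (hts : ∀ j, Odd (t j) ∨ s j = 0)
    (h3 : ∀ j j', 2 ^ s j * t j ≡ 2 ^ s j' * t j' [MOD 3])
    (hinj : ∀ j j', t j = t j' → s j = s j' → j = j') (b L R Q K : ℕ) :
    ∃ X : ℕ, ∀ x : ℕ, X ≤ x → ∀ (c : Fin m → Fin (L + 1) → ZMod 2) (v : Fin R → ℕ → ZMod 2),
      (∀ z, OnePass Q (v z)) → ∀ (Φ : (Fin R → ZMod 2) → ZMod 2) (ρ : ℕ) (κ : ZMod 2),
      (∃ j i, c j i ≠ 0 ∧ Nat.gcd (2 ^ b) (t j) ∣ ρ + (i : ℕ)) →
        √x * Real.log (Real.log x) ^ K / Real.log x ≤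
          (((Finset.range (x + 1)).filter fun n => n % 2 ^ b = ρ % 2 ^ b ∧
            ∑ j : Fin m, ∑ i : Fin (L + 1),
              c j i * (multipartitions (t j) (2 ^ s j * n + i) : ZMod 2) +
              Φ (fun z => v z n) = κ).card : ℝ) := by
  rcases isEmpty_or_nonempty (Fin m) with hm | ⟨⟨j0⟩⟩
  · refine ⟨0, fun x _ c v _ Φ ρ κ h => ?_⟩
    obtain ⟨j, -⟩ := h
    exact hm.elim j
  choose vv u hu hvu using fun j => Nat.exists_eq_two_pow_mul_odd (ht j)
  have hu2 : ∀ j, (u j + 0) % 2 = 1 := fun j => by
    rw [add_zero]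
    exact Nat.odd_iff.1 (hu j)
  have hv0 : ∀ j, Odd (t j) → vv j = 0 := by
    intro j hj
    rcases Nat.eq_zero_or_pos (vv j) with h | h
    · exact h
    · exfalso
      obtain ⟨w, hw⟩ : ∃ w, vv j = w + 1 := ⟨vv j - 1, by omega⟩
      have h1 := Nat.odd_iff.1 hj
      rw [hvu j, hw, pow_succ, mul_comm (2 ^ w) 2, mul_assoc, Nat.mul_mod_right] at h1
      omega
  obtain ⟨X, hX⟩ := Pool.Agent.Run7.h175.JM.mainE (2 ^ s j0 * t j0) b L R Q K vv s u
    (fun _ => 0) hu2 (fun j => (hts j).imp (hv0 j) id) (fun j => by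
      rw [mul_zero, mul_zero, zero_add, ← hvu j]
      exact h3 j j0) (fun j j' h1 h2 h4 => hinj j j' (by
        rw [hvu j, hvu j', h2]
        congr 1) h1)
  refine ⟨X, fun x hx c v hv Φ ρ κ h => ?_⟩
  obtain ⟨j, i, hji, hd⟩ := h
  have h := hX c v hv Φ ρ κ (by
    rcases hts j with h1 | h1
    · refine ⟨j, i, ρ, hji, rfl, ?_⟩
      rw [hv0 j h1, pow_zero]
      exact one_dvd _
    · rcases le_total (vv j) b with h2 | h2
      · refine ⟨j, i, ρ, hji, rfl, ?_⟩
        rw [h1, pow_zero, one_mul]
        refine dvd_trans ?_ hd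
        apply Nat.dvd_gcd (pow_dvd_pow 2 h2)
        rw [hvu j]
        exact Dvd.intro _ rfl
      · -- `n = (2 ^ v - 1) i`
        have h3 : 2 ^ b ∣ ρ + (i : ℕ) := by
          refine dvd_trans ?_ hd
          apply Nat.dvd_gcd (dvd_refl _)
          rw [hvu j]
          exact (pow_dvd_pow 2 h2).mul_right _
        have h4 : (2 ^ vv j - 1) * (i : ℕ) + i = 2 ^ vv j * i := by
          have : 1 ≤ 2 ^ vv j := Nat.one_le_pow _ _ (by norm_num)
          obtain ⟨q, hq⟩ : ∃ q, 2 ^ vv j = q + 1 := ⟨2 ^ vv j - 1, by omega⟩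
          rw [hq, Nat.add_sub_cancel]
          ring
        refine ⟨j, i, (2 ^ vv j - 1) * i, hji, ?_, ?_⟩
        · have h5 : (2 ^ vv j - 1) * (i : ℕ) + i ≡ ρ + i [MOD 2 ^ b] := by
            rw [h4]
            have e1 : 2 ^ vv j * (i : ℕ) ≡ 0 [MOD 2 ^ b] :=
              (Nat.modEq_zero_iff_dvd).2 ((pow_dvd_pow 2 h2).mul_right _)
            exact e1.trans ((Nat.modEq_zero_iff_dvd).2 h3).symm
          exact Nat.ModEq.add_right_cancel' _ h5
        · rw [h1, pow_zero, one_mul, h4]
          exact Dvd.intro _ rfl) x hx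
  have e : (((Finset.range (x + 1)).filter fun n => n % 2 ^ b = ρ % 2 ^ b ∧
      Pool.Agent.Run7.h175.JM.wM c s (fun j n => coeff n
        (Pool.Agent.Run7.h175.JM.Fz (2 ^ vv j * u j) (2 ^ vv j * 0))) n +
          Φ (fun z => v z n) = κ)) =
      (Finset.range (x + 1)).filter fun n => n % 2 ^ b = ρ % 2 ^ b ∧
        ∑ j : Fin m, ∑ i : Fin (L + 1),
          c j i * (multipartitions (t j) (2 ^ s j * n + i) : ZMod 2) +
          Φ (fun z => v z n) = κ := by
    ext n
    unfold Pool.Agent.Run7.h175.JM.wM Pool.Agent.Run7.h175.JM.Fz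
    simp only [Finset.mem_filter, mul_zero, pow_zero, mul_one, ← hvu,
      Pool.Agent.H413R3.Part.coeff_pow_eq]
    rfl
  rw [e] at h
  exact h

end Pool.Agent.Results.MP_a3366f_nt.JointCountsManyFunctions
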