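import Pool.Agent.Run7.h17.SparseQ
import Pool.Agent.Run7.h17.Sparse6

/-!
# Odd density one half after multiplication by a random sparse product

Let `F` be ANY power series with integer coefficients and constant term `± 1`, for instance the generating function
`1 / f₁^t` of the `t`-multipartition function or any eta-quotient, and let `U k` (`k ≥ 1`) be integral power series of
the form `1 ± X^k + O(X^(2 k))`, for instance `1 - X^k`, `1 / (1 - X^k)`, or the eta factors `f_k = ∏ (1 - X^(i k))` and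
`1 / f_k`. Choose a random set `R` of indices: `k ∈ R` with a probability between `a k^(-c)` and `1 - a k^(-c)`,
independently, where `0 < c < 1` is fixed (so `R` may have only about `N^(1-c)` elements up to `N`). Then almost surely the
coefficients of `F ∏_(k ∈ R) U k` have odd density `1/2`, with a power saving; more generally, for all moduli `M`, all
window lengths `L` and all sequences `b` growing at most like `i^D`, `D c < 1`, the windows of `L` consecutive coefficients
at `b i` are equidistributed modulo `M`. In particular for all such `F`, `U` and `ε > 0` there is a set `R` with at most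
`C N^ε` elements up to `N` for which this holds along all arithmetic progressions.
-/

set_option autoImplicit false

namespace Pool.Agent.Results.MP_a3366f_nt.RandomSparseProducts

open MeasureTheory ProbabilityTheory Finset Filter Topology PowerSeries
open Pool.Agent.Run7.h17.Sparse (cp IsFactor sys_series main_as main_det Equi hits cf Cfg)

universe u

open Classical in
/-- the coefficient of `X ^ n` in the product of `F` and the `U k`, `k ∈ R`, `k ≥ 1` (if `U k = 1 + O(X ^ k)`, the factors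
with `k > n` do not matter) -/
noncomputable def co (F : ℤ⟦X⟧) (U : ℕ → ℤ⟦X⟧) (R : Set ℕ) (n : ℕ) : ℤ :=
  coeff n (F * ∏ k ∈ (Icc 1 n).filter (fun k => k ∈ R), U k)

/-- Along the sequence `b`, all windows of values of `h` are equidistributed modulo all `M`, with a power saving. -/
def Equidistributed (h : ℕ → ℤ) (b : ℕ → ℕ) (κ : ℝ) : Prop :=
  ∀ M L : ℕ, 0 < M → ∃ C : ℝ, ∀ (v : Fin L → ZMod M) (I : ℕ), 1 ≤ I →
    |(Set.ncard {i : ℕ | i < I ∧ ∀ s : Fin L, (h (b i + s) : ZMod M) = v s} : ℝ) - (I : ℝ) / (M : ℝ) ^ L| ≤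
      C * (I : ℝ) ^ (1 - κ)

lemma equi_iff {h : ℕ → ℤ} {b : ℕ → ℕ} {κ : ℝ} (he : Equi h b κ) : Equidistributed h b κ := by
  classical
  intro M L hM
  obtain ⟨C, hC⟩ := he M L hM
  refine ⟨C, fun v I hI => ?_⟩
  have h1 := hC v I hI
  have e : Set.ncard {i : ℕ | i < I ∧ ∀ s : Fin L, (h (b i + s) : ZMod M) = v s} = hits h b M L v I := by
    unfold hits
    rw [← Set.ncard_coe_finset]
    congr 1
    ext i
    rw [Set.mem_ofPred_eq, coe_filter, Set.mem_ofPred_eq, mem_range]
  rw [e]
  exact h1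

lemma co_eq (F : ℤ⟦X⟧) (U : ℕ → ℤ⟦X⟧) (x : Cfg) (n : ℕ) :
    co F U {k | x k = true} n = cp F U (fun k => x k = true) n := rfl

/-- **Random sparse products.**
(1) Let `0 < c < 1`, `D ≥ 0`, `D c < 1`. There is `κ > 0` such that for every integral power series `F` with
constant term `± 1`, all integral power series `U k = 1 ± X^k + O(X^(2 k))` (`k ≥ 1`), all independent random bits `ξ k`
with `a k^(-c) ≤ P(ξ k = true) ≤ 1 - a k^(-c)` and all strictly increasing `b` with `b i ≤ C₀ (i + 1)^D`, almost surely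
the coefficients of `F ∏ U k`, the product over the `k` with `ξ k = true`, are equidistributed along `b`: for all
`M ≥ 1` and `L`, every vector modulo `M` is the window of the coefficients of index `b i, …, b i + L - 1` for
`I / M^L + O(I^(1 - κ))` of the `i < I`.
(2) For all such `F` and `U` and `0 < ε < 1` there is a set `R` with at most `C N^ε` elements in `[1, N]`, for all `N`, such
that the coefficients of `F ∏_(k ∈ R) U k` are equidistributed in this sense along all arithmetic progressions (with one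
`κ > 0`); in particular they have odd density `1 / 2`. -/
theorem result :
    (∀ c D : ℝ, 0 < c → c < 1 → 0 ≤ D → D * c < 1 → ∃ κ : ℝ, 0 < κ ∧
      ∀ (F : ℤ⟦X⟧) (U : ℕ → ℤ⟦X⟧), (constantCoeff F = 1 ∨ constantCoeff F = -1) →
        (∀ k, 1 ≤ k → ∃ V : ℤ⟦X⟧, U k = 1 + X ^ k + X ^ (2 * k) * V ∨ U k = 1 - X ^ k + X ^ (2 * k) * V) →
        ∀ (Ω : Type u) [MeasurableSpace Ω] (μ : Measure Ω) [IsProbabilityMeasure μ] (ξ : ℕ → Ω → Bool),
        (∀ k, Measurable (ξ k)) → iIndepFun ξ μ → ∀ a : ℝ, 0 < a →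
        (∀ k : ℕ, 1 ≤ k → a * (k : ℝ) ^ (-c) ≤ μ.real {ω | ξ k ω = true} ∧
          μ.real {ω | ξ k ω = true} ≤ 1 - a * (k : ℝ) ^ (-c)) →
        ∀ b : ℕ → ℕ, StrictMono b → (∃ C₀ : ℝ, ∀ i, (b i : ℝ) ≤ C₀ * ((i : ℝ) + 1) ^ D) →
          ∀ᵐ ω ∂μ, Equidistributed (co F U {k | ξ k ω = true}) b κ) ∧
    (∀ (F : ℤ⟦X⟧) (U : ℕ → ℤ⟦X⟧), (constantCoeff F = 1 ∨ constantCoeff F = -1) →
        (∀ k, 1 ≤ k → ∃ V : ℤ⟦X⟧, U k = 1 + X ^ k + X ^ (2 * k) * V ∨ U k = 1 - X ^ k + X ^ (2 * k) * V) →
      ∀ ε : ℝ, 0 < ε → ε < 1 → ∃ R : Set ℕ,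
      (∃ C : ℝ, ∀ N : ℕ, (Set.ncard {k : ℕ | 1 ≤ k ∧ k ≤ N ∧ k ∈ R} : ℝ) ≤ C * (N : ℝ) ^ ε) ∧
      (∃ κ : ℝ, 0 < κ ∧ ∀ q r : ℕ, 0 < q → Equidistributed (co F U R) (fun i => q * i + r) κ) ∧
      Tendsto (fun N : ℕ => (Set.ncard {n : ℕ | n < N ∧ Odd (co F U R n)} : ℝ) / N) atTop (𝓝 (1 / 2))) := by
  classical
  constructor
  · intro c D hc hc1 hD hDc
    obtain ⟨κ, hκ, -, h⟩ := main_as.{u} c D hc hc1 hD hDc
    refine ⟨κ, hκ, ?_⟩
    intro F U hF hU Ω _ μ _ ξ hm hi a ha hp b hb hbD
    have hF' : coeff 0 F = 1 ∨ coeff 0 F = -1 := by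
      rwa [coeff_zero_eq_constantCoeff_apply]
    filter_upwards [h Ω μ ξ hm hi a ha hp _ _ (sys_series hF' hU) b hb hbD] with ω hω
    exact equi_iff hω
  · intro F U hF hU ε hε hε1
    have hF' : coeff 0 F = 1 ∨ coeff 0 F = -1 := by
      rwa [coeff_zero_eq_constantCoeff_apply]
    obtain ⟨x, ⟨C, hC⟩, κ, hκ, hx⟩ := main_det (sys_series hF' hU) hε hε1
    refine ⟨{k | x k = true}, ⟨C, fun N => ?_⟩, ⟨κ, hκ, fun q r hq => equi_iff (hx q r hq)⟩, ?_⟩
    · have e : {k : ℕ | 1 ≤ k ∧ k ≤ N ∧ k ∈ {k : ℕ | x k = true}} = (((Icc 1 N).filter fun k => x k = true : Finset ℕ) : Set ℕ) := by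
        ext k
        simp only [Set.mem_ofPred_eq, coe_filter, mem_Icc]
        tauto
      rw [e, Set.ncard_coe_finset]
      exact hC N
    · have h1 := (hx 1 0 one_pos)
      have e1 : (fun i : ℕ => 1 * i + 0) = fun i => i := by funext i; omega
      rw [e1] at h1
      have h2 := h1.density hκ 2 two_pos 1
      have e2 : ∀ N : ℕ, Set.ncard {n : ℕ | n < N ∧ Odd (co F U {k | x k = true} n)} =
          hits (fun n => cp F U (fun k => x k = true) n) (fun i => i) 2 1 (fun _ => 1) N := by
        intro N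
        unfold hits
        rw [← Set.ncard_coe_finset]
        congr 1
        ext i
        rw [Set.mem_ofPred_eq, coe_filter, Set.mem_ofPred_eq, mem_range]
        refine and_congr_right fun _ => ?_
        rw [Fin.forall_fin_one, co_eq, ← ZMod.intCast_eq_one_iff_odd]
        simp
      simp only [e2]
      simpa using h2

end Pool.Agent.Results.MP_a3366f_nt.RandomSparseProducts
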